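import Pool.Agent.Lib_helper68.MC.Defs

/-! Project MC (MP_b08f5f_an), block TO: topology of the set of probability measures with second
moment at most one. -/

set_option autoImplicit false

namespace Pool.Agent.Lib_helper68.MC

open MeasureTheory Filter Topology Set
open scoped ComplexConjugate ENNReal NNReal
open Pool.Agent.Lib_helper25.PV (Conf vel Motion centre inertia NC VFlow)
open Pool.Agent.Lib_helper12.HE (ham rad nrm Gam sig shell turn one LimAvg)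

noncomputable section

/-- `min (|x|², n)` -/
def TO_g (n : ℕ) : BoundedContinuousFunction ℂ ℝ≥0 :=
  BoundedContinuousFunction.mkOfBound ⟨fun x => min (‖x‖₊ ^ 2) (n : ℝ≥0), by fun_prop⟩ n (by
    intro x y
    have hx : (min (‖x‖₊ ^ 2) (n : ℝ≥0) : ℝ≥0) ≤ n := min_le_right _ _
    have hy : (min (‖y‖₊ ^ 2) (n : ℝ≥0) : ℝ≥0) ≤ n := min_le_right _ _
    show dist (min (‖x‖₊ ^ 2) (n : ℝ≥0)) (min (‖y‖₊ ^ 2) (n : ℝ≥0)) ≤ n
    rw [NNReal.dist_eq, abs_le]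
    have hx' : ((min (‖x‖₊ ^ 2) (n : ℝ≥0) : ℝ≥0) : ℝ) ≤ n := by exact_mod_cast hx
    have hy' : ((min (‖y‖₊ ^ 2) (n : ℝ≥0) : ℝ≥0) : ℝ) ≤ n := by exact_mod_cast hy
    have hx0 := (min (‖x‖₊ ^ 2) (n : ℝ≥0)).coe_nonneg
    have hy0 := (min (‖y‖₊ ^ 2) (n : ℝ≥0)).coe_nonneg
    constructor <;> linarith)

theorem TO_g_apply (n : ℕ) (x : ℂ) : TO_g n x = min (‖x‖₊ ^ 2) (n : ℝ≥0) := rfl

theorem TO_sup (x : ℂ) : (⨆ n : ℕ, ((TO_g n x : ℝ≥0) : ℝ≥0∞)) = ‖x‖ₑ ^ 2 := by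
  apply le_antisymm
  · refine iSup_le fun n => ?_
    rw [TO_g_apply, enorm_eq_nnnorm, ← ENNReal.coe_pow]
    exact ENNReal.coe_le_coe.2 (min_le_left _ _)
  · obtain ⟨n, hn⟩ := exists_nat_ge (‖x‖₊ ^ 2)
    refine le_iSup_of_le n ?_
    rw [TO_g_apply, enorm_eq_nnnorm, ← ENNReal.coe_pow]
    exact ENNReal.coe_le_coe.2 (le_min le_rfl hn)

theorem TO_KK_iff (μ : ProbabilityMeasure ℂ) :
    μ ∈ KK ↔ ∀ n : ℕ, ∫⁻ x, (TO_g n x : ℝ≥0∞) ∂(μ : Measure ℂ) ≤ 1 := by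
  have h : ∫⁻ x, ‖x‖ₑ ^ 2 ∂(μ : Measure ℂ) =
      ⨆ n : ℕ, ∫⁻ x, (TO_g n x : ℝ≥0∞) ∂(μ : Measure ℂ) := by
    rw [← lintegral_iSup (fun n => (TO_g n).continuous.measurable.coe_nnreal_ennreal)]
    · exact lintegral_congr fun x => (TO_sup x).symm
    · intro n m hnm x
      simp only [TO_g_apply]
      exact ENNReal.coe_le_coe.2 (min_le_min le_rfl (by exact_mod_cast hnm))
  unfold KK
  rw [mem_ofPred_eq, h, iSup_le_iff]

theorem TO_closed : IsClosed KK := by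
  have h : KK = ⋂ n : ℕ, {μ : ProbabilityMeasure ℂ |
      ∫⁻ x, (TO_g n x : ℝ≥0∞) ∂(μ : Measure ℂ) ≤ 1} := by
    ext μ
    rw [TO_KK_iff]
    simp
  rw [h]
  exact isClosed_iInter fun n => isClosed_le
    (ProbabilityMeasure.continuous_lintegral_boundedContinuousFunction (TO_g n)) continuous_const

theorem TO_compact : IsCompact KK := by
  rw [← TO_closed.closure_eq]
  refine isCompact_closure_of_isTightMeasureSet ?_
  rw [isTightMeasureSet_iff_exists_isCompact_measure_compl_le]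
  intro ε hε
  rcases eq_or_ne ε ⊤ with rfl | hεt
  · exact ⟨∅, isCompact_empty, fun _ _ => le_top⟩
  obtain ⟨n, hn⟩ := ENNReal.exists_nat_gt (ENNReal.inv_ne_top.2 hε.ne')
  have hn0 : (n : ℝ≥0∞) ≠ 0 := fun h => by simp [h] at hn
  refine ⟨Metric.closedBall 0 (n : ℝ), isCompact_closedBall 0 _, ?_⟩
  rintro _ ⟨μ, hμ, rfl⟩
  have h1 : (n : ℝ≥0∞) * (μ : Measure ℂ) {x | (n : ℝ≥0∞) ≤ ‖x‖ₑ ^ 2} ≤ 1 :=
    (mul_meas_ge_le_lintegral (by fun_prop) _).trans hμ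
  have h2 : (Metric.closedBall (0 : ℂ) (n : ℝ))ᶜ ⊆ {x | (n : ℝ≥0∞) ≤ ‖x‖ₑ ^ 2} := by
    intro x hx
    simp only [Metric.mem_closedBall, dist_zero_right, mem_compl_iff, not_le] at hx
    have hn1 : (1 : ℝ) ≤ n := by
      have : n ≠ 0 := fun h => hn0 (by simp [h])
      exact_mod_cast Nat.one_le_iff_ne_zero.2 this
    have h3 : (n : ℝ≥0) ≤ ‖x‖₊ ^ 2 := by
      rw [← NNReal.coe_le_coe]
      push_cast
      nlinarith
    show (n : ℝ≥0∞) ≤ ‖x‖ₑ ^ 2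
    rw [enorm_eq_nnnorm, ← ENNReal.coe_pow]
    exact_mod_cast h3
  calc (μ : Measure ℂ) (Metric.closedBall (0 : ℂ) (n : ℝ))ᶜ
      ≤ (μ : Measure ℂ) {x | (n : ℝ≥0∞) ≤ ‖x‖ₑ ^ 2} := measure_mono h2
    _ ≤ 1 / n := by
        rw [ENNReal.le_div_iff_mul_le (Or.inl hn0) (Or.inl (ENNReal.natCast_ne_top n)), mul_comm]
        exact h1
    _ ≤ ε := by
        rw [one_div]
        exact (ENNReal.inv_le_iff_inv_le).1 hn.le

theorem TO_coe {N : ℕ} (hN : 1 ≤ N) (y : Conf N) :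
    (emp y : Measure ℂ) = (N : ℝ≥0∞)⁻¹ • ∑ i, Measure.dirac (y i) := by
  unfold emp
  rw [dif_pos (by omega)]
  rfl

theorem TO_lintegral {N : ℕ} (hN : 1 ≤ N) (y : Conf N) (f : ℂ → ℝ≥0∞) :
    ∫⁻ x, f x ∂(emp y : Measure ℂ) = (N : ℝ≥0∞)⁻¹ * ∑ i, f (y i) := by
  rw [TO_coe hN, lintegral_smul_measure, lintegral_finsetSum_measure, smul_eq_mul]
  simp

theorem TO_emp {N : ℕ} (hN : 1 ≤ N) {y : Conf N} (hy : y ∈ Gam N) : emp y ∈ KK := by
  show ∫⁻ x, ‖x‖ₑ ^ 2 ∂(emp y : Measure ℂ) ≤ 1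
  rw [TO_lintegral hN]
  have hN0 : (N : ℝ) ≠ 0 := by
    have : N ≠ 0 := by omega
    exact_mod_cast this
  have h1 : ∑ i, ‖y i‖ ^ 2 = (N : ℝ) := by
    have := hy.2.2
    rwa [div_eq_one_iff_eq hN0] at this
  have h2 : ∑ i, ‖y i‖ₑ ^ 2 = (N : ℝ≥0∞) := by
    have : ∑ i, ‖y i‖₊ ^ 2 = (N : ℝ≥0) := by
      rw [← NNReal.coe_inj]
      push_cast
      exact h1
    calc ∑ i, ‖y i‖ₑ ^ 2 = ((∑ i, ‖y i‖₊ ^ 2 : ℝ≥0) : ℝ≥0∞) := by
          push_cast
          rfl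
      _ = (N : ℝ≥0∞) := by rw [this]; simp
  rw [h2, ENNReal.inv_mul_cancel (by exact_mod_cast (by omega : N ≠ 0))
    (ENNReal.natCast_ne_top N)]

theorem TO_integral {N : ℕ} (hN : 1 ≤ N) (y : Conf N) (f : ℂ → ℝ) :
    ∫ x, f x ∂(emp y : Measure ℂ) = (∑ i, f (y i)) / N := by
  rw [TO_coe hN, integral_smul_measure, integral_finsetSum_measure]
  · simp [integral_dirac, div_eq_inv_mul]
  · intro i _
    exact integrable_dirac (by simp)

theorem TO_sq_int {μ : ProbabilityMeasure ℂ} (hμ : μ ∈ KK) :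
    Integrable (fun x : ℂ => ‖x‖ ^ 2) (μ : Measure ℂ) := by
  refine ⟨by fun_prop, ?_⟩
  have h : ∫⁻ x, ‖(‖x‖ ^ 2 : ℝ)‖ₑ ∂(μ : Measure ℂ) = ∫⁻ x, ‖x‖ₑ ^ 2 ∂(μ : Measure ℂ) := by
    refine lintegral_congr fun x => ?_
    rw [enorm_pow, enorm_norm]
  rw [hasFiniteIntegral_iff_enorm, h]
  exact lt_of_le_of_lt hμ ENNReal.one_lt_top

theorem TO_sq_le {μ : ProbabilityMeasure ℂ} (hμ : μ ∈ KK) :
    ∫ x, ‖x‖ ^ 2 ∂(μ : Measure ℂ) ≤ 1 := by
  rw [integral_eq_lintegral_of_nonneg_ae (ae_of_all _ fun x => by positivity) (by fun_prop)]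
  have h : ∫⁻ x, ENNReal.ofReal (‖x‖ ^ 2) ∂(μ : Measure ℂ) = ∫⁻ x, ‖x‖ₑ ^ 2 ∂(μ : Measure ℂ) := by
    refine lintegral_congr fun x => ?_
    rw [ENNReal.ofReal_pow (norm_nonneg _), ofReal_norm]
  rw [h]
  exact ENNReal.toReal_le_of_le_ofReal zero_le_one (by rw [ENNReal.ofReal_one]; exact hμ)

/-- cut off a real function at the levels `±R` -/
def TO_cut (R t : ℝ) : ℝ := max (-R) (min R t)

theorem TO_cut_abs {R : ℝ} (hR : 0 < R) (t : ℝ) : |TO_cut R t| ≤ R := by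
  unfold TO_cut
  rw [abs_le]
  exact ⟨le_max_left _ _, max_le (by linarith) (min_le_left _ _)⟩

theorem TO_cut_err {R : ℝ} (hR : 0 < R) (t : ℝ) : |t - TO_cut R t| ≤ t ^ 2 / R := by
  unfold TO_cut
  rcases le_total t R with h1 | h1
  · rw [min_eq_right h1]
    rcases le_total (-R) t with h2 | h2
    · rw [max_eq_right h2]
      simp only [sub_self, abs_zero]
      positivity
    · rw [max_eq_left h2, abs_le]
      have : -t * R ≤ t ^ 2 := by nlinarith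
      have h3 : -t ≤ t ^ 2 / R := by
        rw [le_div_iff₀ hR]
        exact this
      constructor <;> linarith
  · rw [min_eq_left h1, max_eq_right (by linarith), abs_le]
    have h3 : t ≤ t ^ 2 / R := by
      rw [le_div_iff₀ hR]
      nlinarith
    constructor <;> linarith

theorem TO_cut_int {μ : ProbabilityMeasure ℂ} (hμ : μ ∈ KK) {L : ℂ → ℝ} (hL : Continuous L)
    (hb : ∀ x, |L x| ≤ ‖x‖) {R : ℝ} (hR : 0 < R) :
    |(∫ x, L x ∂(μ : Measure ℂ)) - ∫ x, TO_cut R (L x) ∂(μ : Measure ℂ)| ≤ 1 / R := by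
  have hI := TO_sq_int hμ
  have hLi : Integrable L (μ : Measure ℂ) := by
    refine ((hI.add (integrable_const (1 : ℝ)))).mono' hL.aestronglyMeasurable
      (ae_of_all _ fun x => ?_)
    have := hb x
    simp only [Pi.add_apply, Real.norm_eq_abs]
    nlinarith [norm_nonneg x, sq_nonneg (‖x‖ - 1)]
  have hci : Integrable (fun x => TO_cut R (L x)) (μ : Measure ℂ) := by
    refine (integrable_const R).mono' ?_ (ae_of_all _ fun x => TO_cut_abs hR _)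
    unfold TO_cut
    exact (by fun_prop : Continuous fun x => max (-R) (min R (L x))).aestronglyMeasurable
  rw [← integral_sub hLi hci]
  have h1 : |∫ x, (L x - TO_cut R (L x)) ∂(μ : Measure ℂ)| ≤
      ∫ x, ‖x‖ ^ 2 / R ∂(μ : Measure ℂ) := by
    refine (norm_integral_le_integral_norm _).trans (integral_mono (hLi.sub hci).norm
      (hI.div_const R) fun x => ?_)
    show |L x - TO_cut R (L x)| ≤ ‖x‖ ^ 2 / R
    refine (TO_cut_err hR _).trans (div_le_div_of_nonneg_right ?_ hR.le)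
    rw [← sq_abs]
    exact pow_le_pow_left₀ (abs_nonneg _) (hb x) 2
  refine h1.trans ?_
  rw [integral_div]
  exact div_le_div_of_nonneg_right (TO_sq_le hμ) hR.le

/-- the bounded continuous function `TO_cut R ∘ L` -/
theorem TO_cut_cont {L : ℂ → ℝ} (hL : Continuous L) {R : ℝ} (hR : 0 < R) :
    Continuous fun ν : ProbabilityMeasure ℂ => ∫ x, TO_cut R (L x) ∂(ν : Measure ℂ) := by
  have hc : Continuous fun x => TO_cut R (L x) := by
    unfold TO_cut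
    fun_prop
  exact ProbabilityMeasure.continuous_integral_boundedContinuousFunction
    (BoundedContinuousFunction.ofNormedAddCommGroup (fun x => TO_cut R (L x)) hc R
      fun x => TO_cut_abs hR _)

theorem TO_centre_aux {μ : ProbabilityMeasure ℂ} (hμ : μ ∈ KK) {L : ℂ → ℝ} (hL : Continuous L)
    (hb : ∀ x, |L x| ≤ ‖x‖) (h0 : ∀ N : ℕ, ∀ y : Conf N, y ∈ Gam N → ∑ i, L (y i) = 0)
    (hc : ∫ x, L x ∂(μ : Measure ℂ) ≠ 0) : ∃ U : Set (ProbabilityMeasure ℂ), IsOpen U ∧ μ ∈ U ∧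
      ∀ N : ℕ, 1 ≤ N → ∀ y : Conf N, y ∈ Gam N → emp y ∉ U := by
  set c := |∫ x, L x ∂(μ : Measure ℂ)| with hcdef
  have hc0 : 0 < c := abs_pos.2 hc
  set R : ℝ := 4 / c with hR
  have hR0 : 0 < R := by positivity
  have hRc : 1 / R = c / 4 := by rw [hR]; field_simp
  refine ⟨{ν | |(∫ x, TO_cut R (L x) ∂(ν : Measure ℂ)) - ∫ x, TO_cut R (L x) ∂(μ : Measure ℂ)| <
    c / 4}, ?_, ?_, ?_⟩
  · exact isOpen_lt (((TO_cut_cont hL hR0).sub continuous_const).abs) continuous_const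
  · show |_ - _| < c / 4
    rw [sub_self, abs_zero]
    positivity
  · intro N hN y hy hU
    have hU' : |(∫ x, TO_cut R (L x) ∂(emp y : Measure ℂ)) -
      ∫ x, TO_cut R (L x) ∂(μ : Measure ℂ)| < c / 4 := hU
    have h1 := TO_cut_int (TO_emp hN hy) hL hb hR0
    have h2 := TO_cut_int hμ hL hb hR0
    rw [TO_integral hN y L, h0 N y hy, zero_div, zero_sub, abs_neg, hRc] at h1
    rw [hRc] at h2
    have h3 := abs_sub_abs_le_abs_sub (∫ x, L x ∂(μ : Measure ℂ))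
      (∫ x, TO_cut R (L x) ∂(μ : Measure ℂ))
    have h4 := abs_sub_abs_le_abs_sub (∫ x, TO_cut R (L x) ∂(μ : Measure ℂ))
      (∫ x, TO_cut R (L x) ∂(emp y : Measure ℂ))
    rw [abs_sub_comm] at h4
    linarith

/-- the centre passes to the limit -/
theorem TO_centre {μ : ProbabilityMeasure ℂ} (hμ : μ ∈ KK)
    (hc : ∫ x, x ∂(μ : Measure ℂ) ≠ 0) : ∃ U : Set (ProbabilityMeasure ℂ), IsOpen U ∧ μ ∈ U ∧
      ∀ N : ℕ, 1 ≤ N → ∀ y : Conf N, y ∈ Gam N → emp y ∉ U := by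
  have hi : Integrable (fun x : ℂ => x) (μ : Measure ℂ) := by
    refine (((TO_sq_int hμ).add (integrable_const (1 : ℝ)))).mono'
      continuous_id.aestronglyMeasurable (ae_of_all _ fun x => ?_)
    simp only [Pi.add_apply]
    nlinarith [norm_nonneg x, sq_nonneg (‖x‖ - 1)]
  have hre : (∫ x, x ∂(μ : Measure ℂ)).re = ∫ x : ℂ, x.re ∂(μ : Measure ℂ) := by
    have := integral_re hi
    simpa using this.symm
  have him : (∫ x, x ∂(μ : Measure ℂ)).im = ∫ x : ℂ, x.im ∂(μ : Measure ℂ) := by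
    have := integral_im hi
    simpa using this.symm
  by_cases h : ∫ x : ℂ, x.re ∂(μ : Measure ℂ) = 0
  · have h' : ∫ x : ℂ, x.im ∂(μ : Measure ℂ) ≠ 0 := by
      intro h'
      exact hc (Complex.ext (by rw [hre, h]; rfl) (by rw [him, h']; rfl))
    refine TO_centre_aux hμ Complex.continuous_im Complex.abs_im_le_norm ?_ h'
    intro N y hy
    rw [← Complex.im_sum, hy.2.1]
    rfl
  · refine TO_centre_aux hμ Complex.continuous_re Complex.abs_re_le_norm ?_ h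
    intro N y hy
    rw [← Complex.re_sum, hy.2.1]
    rfl

end

end Pool.Agent.Lib_helper68.MC
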